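import Pool.Agent.T6.H9.QM.Var

/-!
# Sums of pairwise uncorrelated functions

Owner helper9.
-/

set_option autoImplicit false
set_option linter.unusedSectionVars false
set_option linter.style.haveILetI false
set_option linter.unusedVariables false

open Finset

namespace Pool.Agent.T6.H9.QM

section

variable {Q : Type*} [Finite Q] {π : Type*}

lemma pair_zero (P : Finset π) (ξ : π → Q → ℝ) (h0 : ∀ p ∈ P, rmean (ξ p) = 0) :
    rmean (fun c => ∑ p ∈ P, ξ p c) = 0 := by
  rw [rmean_sum]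
  exact Finset.sum_eq_zero h0

lemma pair_sq (P : Finset π) (ξ : π → Q → ℝ) {τ : ℝ}
    (h1 : ∀ p ∈ P, ∀ p' ∈ P, p ≠ p' → rmean (fun c => ξ p c * ξ p' c) = 0)
    (h2 : ∀ p ∈ P, rmean (fun c => ξ p c * ξ p c) ≤ τ) :
    rmean (fun c => (∑ p ∈ P, ξ p c) ^ 2) ≤ P.card * τ := by
  classical
  have e1 : (fun c => (∑ p ∈ P, ξ p c) ^ 2) = fun c => ∑ p ∈ P, ∑ p' ∈ P, ξ p c * ξ p' c := by
    funext c
    rw [sq, Finset.sum_mul_sum]
  rw [e1, rmean_sum]
  have e2 : ∀ p ∈ P, rmean (fun c => ∑ p' ∈ P, ξ p c * ξ p' c) ≤ τ := by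
    intro p hp
    rw [rmean_sum, Finset.sum_eq_single p]
    · exact h2 p hp
    · intro p' hp' hne
      exact h1 p hp p' hp' (Ne.symm hne)
    · intro h
      exact absurd hp h
  refine (Finset.sum_le_sum e2).trans (le_of_eq ?_)
  rw [Finset.sum_const, nsmul_eq_mul]

lemma pair_abs (P : Finset π) (ξ : π → Q → ℝ) (h : ∀ p ∈ P, ∀ c, |ξ p c| ≤ 1) (c : Q) :
    |∑ p ∈ P, ξ p c| ≤ P.card := by
  refine (Finset.abs_sum_le_sum_abs _ _).trans ?_
  refine (Finset.sum_le_sum fun p hp => h p hp c).trans (le_of_eq ?_)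
  rw [Finset.sum_const, nsmul_eq_mul, mul_one]

/-- independence -/
lemma indep {R A B : Type*} [AddCommGroup R] [Finite R] [AddCommGroup A] [AddCommGroup B]
    [Finite A] [Finite B] (L : R →+ A × B) (hL : Function.Surjective L) (f : A → ℝ) (g : B → ℝ) :
    rmean (fun c => f (L c).1 * g (L c).2) = rmean f * rmean g := by
  rw [← rmean_prod]
  exact rmean_comp L hL (fun p : A × B => f p.1 * g p.2)

lemma marg {R A : Type*} [AddCommGroup R] [Finite R] [AddCommGroup A]
    [Finite A] (L : R →+ A) (hL : Function.Surjective L) (f : A → ℝ) :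
    rmean (fun c => f (L c)) = rmean f := rmean_comp L hL f

end

end Pool.Agent.T6.H9.QM
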