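import Pool.Agent.T6.H9.QM.Alm

/-!
# The almost-all theorem for sets of coefficient vectors, with a perturbation

Owner helper9.
-/

set_option autoImplicit false
set_option linter.unusedSectionVars false
set_option linter.style.haveILetI false
set_option linter.unusedVariables false

open Finset NumberField IsDedekindDomain

namespace Pool.Agent.T6.H9.QM

open Pool.Agent.T6.H9.MV Pool.Agent.T6.H9.HY

section

variable {K : Type} [Field K] [NumberField K] {ι : Type} [Fintype ι] [DecidableEq ι]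
  {κ : Type} [Fintype κ] [DecidableEq κ]

/-- the set of coefficient vectors with bounded coordinates -/
def BoxS (ω : Module.Basis ι ℤ (𝓞 K)) (B : κ × ι → ℕ) : Set (κ → 𝓞 K) :=
  {c | ∀ i j, |ω.repr (c i) j| ≤ (B (i, j) : ℤ)}

lemma repr_ptG (ω : Module.Basis ι ℤ (𝓞 K)) (x : κ × ι → ℤ) (i : κ) (j : ι) :
    ω.repr (ptG ω κ x i) j = x (i, j) := by
  rw [ptG_apply]
  change ω.equivFun (ω.equivFun.symm fun j => x (i, j)) j = x (i, j)
  rw [LinearEquiv.apply_symm_apply]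

lemma boxS_eq (ω : Module.Basis ι ℤ (𝓞 K)) (B : κ × ι → ℕ) (p : (κ → 𝓞 K) → Prop) :
    {c : κ → 𝓞 K | c ∈ BoxS ω B ∧ p c} =
      (ptG ω κ) '' {x | x ∈ MV.box B ∧ p (ptG ω κ x)} := by
  ext c
  constructor
  · rintro ⟨h1, h2⟩
    obtain ⟨x, rfl⟩ := ptG_surj ω c
    refine ⟨x, ⟨?_, h2⟩, rfl⟩
    rw [mem_box]
    rintro ⟨i, j⟩
    have h3 := h1 i j
    rwa [repr_ptG] at h3
  · rintro ⟨x, ⟨h1, h2⟩, rfl⟩
    refine ⟨fun i j => ?_, h2⟩
    rw [repr_ptG]
    exact mem_box.1 h1 (i, j)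

open Classical in
lemma ncard_boxS (ω : Module.Basis ι ℤ (𝓞 K)) (B : κ × ι → ℕ) (p : (κ → 𝓞 K) → Prop) :
    {c : κ → 𝓞 K | c ∈ BoxS ω B ∧ p c}.ncard =
      ((MV.box B).filter fun x => p (ptG ω κ x)).card := by
  rw [boxS_eq, Set.ncard_image_of_injective _ (ptG_inj ω)]
  rw [← Set.ncard_coe_finset]
  congr 1
  ext x
  simp

lemma ncard_boxS' (ω : Module.Basis ι ℤ (𝓞 K)) (B : κ × ι → ℕ) :
    (BoxS ω B : Set (κ → 𝓞 K)).ncard = (MV.box B).card := by
  classical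
  have h := ncard_boxS ω B (fun _ : κ → 𝓞 K => True)
  simpa using h

/-- **Almost all coefficient vectors**, with a perturbation of smaller order. -/
theorem almost_all_set (ω : Module.Basis ι ℤ (𝓞 K)) {e β c₁ c₂ δ C' : ℝ} (he : 0 ≤ e)
    (hβ : 0 ≤ β) (hc₁ : 0 ≤ c₁) (hc₂ : 0 ≤ c₂) (hδ : 0 < δ)
    (W : ∀ v : HeightOneSpectrum (𝓞 K), (κ → kv v) → ℝ) (h0 : ∀ v, rmean (W v) = 0)
    (hV : ∀ v, rmean (fun a => W v a ^ 2) ≤ c₁ * (qv v : ℝ) ^ (2 * e - 1))
    (hS : ∀ v a, |W v a| ≤ c₂ * (qv v : ℝ) ^ β) (T : (κ → 𝓞 K) → ℕ → ℝ)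
    (hT : ∀ (c : κ → 𝓞 K) (X : ℕ), 1 ≤ X → |T c X - ∑ v ∈ plE K X, Real.log (qv v) *
      W v (redG v κ c)| ≤ C' * (X : ℝ) ^ (e + δ / 2)) :
    ∃ C : ℝ, 0 < C ∧ ∀ (N : ℕ) (B : κ × ι → ℕ), (∀ j, N ≤ B j) → ∀ X₀ : ℝ, 1 ≤ X₀ →
      ({c : κ → 𝓞 K | c ∈ BoxS ω B ∧ ∃ X : ℕ, X₀ ≤ X ∧ (X : ℝ) ^ (2 * β + 4) ≤ N ∧
        (X : ℝ) ^ (e + δ) < |T c X|}.ncard : ℝ) ≤
        C * X₀ ^ (-δ) * ((BoxS ω B : Set (κ → 𝓞 K)).ncard : ℝ) := by
  classical
  obtain ⟨C, hC0, hC⟩ := almost_all ω (κ := κ) he hβ (by positivity : (0 : ℝ) ≤ 4 * c₁)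
    (by positivity : (0 : ℝ) ≤ 2 * c₂) hδ (fun v a => 2 * W v a)
    (fun v => by rw [rmean_const_mul, h0, mul_zero])
    (fun v => by
      have h1 : (fun a => (2 * W v a) ^ 2) = fun a => 4 * W v a ^ 2 := by
        funext a
        ring
      rw [h1, rmean_const_mul, mul_assoc]
      exact mul_le_mul_of_nonneg_left (hV v) (by norm_num))
    (fun v a => by
      rw [abs_mul, abs_two, mul_assoc]
      exact mul_le_mul_of_nonneg_left (hS v a) (by norm_num))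
  -- the threshold
  set M : ℝ := max 1 (2 * |C'|) with hM
  have hM1 : 1 ≤ M := le_max_left _ _
  have hM0 : 0 < M := by linarith
  set X₁ : ℝ := M ^ (2 / δ) with hX₁
  have hX₁0 : 0 < X₁ := Real.rpow_pos_of_pos hM0 _
  refine ⟨max C (X₁ ^ δ), lt_max_of_lt_left hC0, fun N B hB X₀ hX₀ => ?_⟩
  rw [ncard_boxS', ncard_boxS ω B]
  have hX₀' : 0 < X₀ := by linarith
  have hXp : 0 < X₀ ^ (-δ) := Real.rpow_pos_of_pos hX₀' _
  have hbox : (0 : ℝ) < (MV.box B).card := by exact_mod_cast card_box_pos B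
  rcases lt_or_ge X₀ X₁ with hlt | hge
  · -- trivial bound
    have h1 : (((MV.box B).filter fun x => ∃ X : ℕ, X₀ ≤ X ∧ (X : ℝ) ^ (2 * β + 4) ≤ N ∧
        (X : ℝ) ^ (e + δ) < |T (ptG ω κ x) X|).card : ℝ) ≤ (MV.box B).card := by
      exact_mod_cast Finset.card_filter_le _ _
    refine h1.trans ?_
    have h2 : 1 ≤ max C (X₁ ^ δ) * X₀ ^ (-δ) := by
      have h3 : 1 ≤ X₁ ^ δ * X₀ ^ (-δ) := by
        rw [Real.rpow_neg hX₀'.le, ← div_eq_mul_inv, ← Real.div_rpow hX₁0.le hX₀'.le]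
        refine Real.one_le_rpow ?_ hδ.le
        rw [one_le_div hX₀']
        exact hlt.le
      exact h3.trans (mul_le_mul_of_nonneg_right (le_max_right _ _) hXp.le)
    calc ((MV.box B).card : ℝ) = 1 * (MV.box B).card := (one_mul _).symm
      _ ≤ _ := mul_le_mul_of_nonneg_right h2 hbox.le
  · have h1 := hC N B hB X₀ hX₀
    refine le_trans ?_ (h1.trans ?_)
    · have h2 : ((MV.box B).filter fun x => ∃ X : ℕ, X₀ ≤ X ∧ (X : ℝ) ^ (2 * β + 4) ≤ N ∧
          (X : ℝ) ^ (e + δ) < |T (ptG ω κ x) X|) ⊆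
          ((MV.box B).filter fun x => ∃ X : ℕ, X₀ ≤ X ∧ (X : ℝ) ^ (2 * β + 4) ≤ N ∧
          (X : ℝ) ^ (e + δ) < |∑ v ∈ plE K X, Real.log (qv v) *
            (2 * W v (redG v κ (ptG ω κ x)))|) := by
        intro x hx
        obtain ⟨hxB, X, hX0, hXN, hlt⟩ := Finset.mem_filter.1 hx
        refine Finset.mem_filter.2 ⟨hxB, X, hX0, hXN, ?_⟩
        have hXr : 1 ≤ (X : ℝ) := hX₀.trans hX0
        have hXn : 1 ≤ X := by exact_mod_cast hXr
        have hXpos : (0 : ℝ) < X := by linarith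
        have h3 := hT (ptG ω κ x) X hXn
        have h4 : C' * (X : ℝ) ^ (e + δ / 2) ≤ (1 / 2) * (X : ℝ) ^ (e + δ) := by
          have h5 : (X : ℝ) ^ (e + δ) = (X : ℝ) ^ (e + δ / 2) * (X : ℝ) ^ (δ / 2) := by
            rw [← Real.rpow_add hXpos]
            congr 1
            ring
          have h6 : M ≤ (X : ℝ) ^ (δ / 2) := by
            have h7 : X₁ ^ (δ / 2) ≤ (X : ℝ) ^ (δ / 2) :=
              Real.rpow_le_rpow hX₁0.le (hge.trans hX0) (by linarith)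
            have h8 : X₁ ^ (δ / 2) = M := by
              rw [hX₁, ← Real.rpow_mul hM0.le]
              have h9 : 2 / δ * (δ / 2) = 1 := by field_simp
              rw [h9, Real.rpow_one]
            rwa [h8] at h7
          have h7 : C' ≤ M / 2 := by
            have h8 : 2 * |C'| ≤ M := le_max_right _ _
            have h9 := le_abs_self C'
            linarith
          have h8 : 0 ≤ (X : ℝ) ^ (e + δ / 2) := Real.rpow_nonneg hXpos.le _
          rw [h5]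
          nlinarith
        have h5 : ∑ v ∈ plE K X, Real.log (qv v) * (2 * W v (redG v κ (ptG ω κ x))) =
            2 * ∑ v ∈ plE K X, Real.log (qv v) * W v (redG v κ (ptG ω κ x)) := by
          rw [Finset.mul_sum]
          refine Finset.sum_congr rfl fun v _ => ?_
          ring
        rw [h5, abs_mul, abs_two]
        have h6 : |T (ptG ω κ x) X| ≤ |T (ptG ω κ x) X - ∑ v ∈ plE K X, Real.log (qv v) *
            W v (redG v κ (ptG ω κ x))| + |∑ v ∈ plE K X, Real.log (qv v) *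
            W v (redG v κ (ptG ω κ x))| := by
          have h7 := abs_add_le (T (ptG ω κ x) X - ∑ v ∈ plE K X, Real.log (qv v) *
            W v (redG v κ (ptG ω κ x))) (∑ v ∈ plE K X, Real.log (qv v) *
            W v (redG v κ (ptG ω κ x)))
          rwa [sub_add_cancel] at h7
        linarith
      exact_mod_cast Finset.card_le_card h2
    · refine mul_le_mul_of_nonneg_right ?_ hbox.le
      exact mul_le_mul_of_nonneg_right (le_max_left _ _) hXp.le

/-- the sum of `log q / q` over the places of norm at most `X` -/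
lemma sum_log_div {ε : ℝ} (hε : 0 < ε) : ∃ C : ℝ, 0 ≤ C ∧ ∀ X : ℕ,
    ∑ v ∈ plE K X, Real.log (qv v) / (qv v : ℝ) ≤ C * (X : ℝ) ^ ε := by
  have h2 : (0 : ℝ) ≤ ∑' v : HeightOneSpectrum (𝓞 K), (qv v : ℝ) ^ (-(1 + ε / 2)) :=
    tsum_nonneg fun v => Real.rpow_nonneg (Nat.cast_nonneg _) _
  refine ⟨1 / (ε / 2) * ∑' v : HeightOneSpectrum (𝓞 K), (qv v : ℝ) ^ (-(1 + ε / 2)),
    by positivity, fun X => ?_⟩
  have h1 := sum_le_of (K := K) (f := fun v => Real.log (qv v) / (qv v : ℝ))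
    (c := 1 / (ε / 2)) (a := ε / 2 - 1) (ε := ε / 2) (by positivity) (by positivity) (by linarith)
    (fun v => by
      have hq : (0 : ℝ) < qv v := by linarith [one_le_qvR v]
      rw [Real.rpow_sub_one hq.ne']
      have h3 := log_le_rpow (one_le_qvR v) (by positivity : 0 < ε / 2)
      have h4 : 1 / (ε / 2) * ((qv v : ℝ) ^ (ε / 2) / (qv v : ℝ)) =
          ((qv v : ℝ) ^ (ε / 2) / (ε / 2)) / (qv v : ℝ) := by
        field_simp
      rw [h4]
      exact div_le_div_of_nonneg_right h3 hq.le) (X := X)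
  have h3 : ε / 2 - 1 + 1 + ε / 2 = ε := by ring
  rwa [h3] at h1

end

end Pool.Agent.T6.H9.QM
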