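import Pool.Agent.T6.H9.QM.Max

/-!
# Sums of local functions of mean zero are small for almost all points of a box

Owner helper9.
-/

set_option autoImplicit false
set_option linter.unusedSectionVars false
set_option linter.style.haveILetI false
set_option linter.unusedVariables false

open Finset NumberField IsDedekindDomain

namespace Pool.Agent.T6.H9.QM

open Pool.Agent.T6.H9.MV Pool.Agent.T6.H9.HY

section

variable {K : Type} [Field K] [NumberField K] {ι : Type} [Fintype ι] [DecidableEq ι]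
  {κ : Type} [Fintype κ] [DecidableEq κ]

lemma log_le_rpow {q ε : ℝ} (hq : 1 ≤ q) (hε : 0 < ε) : Real.log q ≤ q ^ ε / ε :=
  Real.log_le_rpow_div (by linarith) hε

lemma one_le_qvR (v : HeightOneSpectrum (𝓞 K)) : (1 : ℝ) ≤ qv v := by
  have := two_le_qv v
  exact_mod_cast (by omega : 1 ≤ qv v)

/-- bound for sums over the places of norm at most `X` -/
lemma sum_le_of {f : HeightOneSpectrum (𝓞 K) → ℝ} {c a ε : ℝ} (hc : 0 ≤ c) (hε : 0 < ε)
    (ha : 0 ≤ a + 1 + ε) (hf : ∀ v, f v ≤ c * (qv v : ℝ) ^ a) {X : ℕ} :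
    ∑ v ∈ plE K X, f v ≤ c * (∑' v : HeightOneSpectrum (𝓞 K), (qv v : ℝ) ^ (-(1 + ε))) *
      (X : ℝ) ^ (a + 1 + ε) := by
  have hs := summable_qv (K := K) (x := 1 + ε) (by linarith)
  have h1 : ∀ v ∈ plE K X, f v ≤ c * (X : ℝ) ^ (a + 1 + ε) * (qv v : ℝ) ^ (-(1 + ε)) := by
    intro v hv
    have hq : (0 : ℝ) < qv v := by linarith [one_le_qvR v]
    have hX : (qv v : ℝ) ≤ X := by exact_mod_cast mem_plE.1 hv
    refine (hf v).trans ?_
    rw [mul_assoc]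
    refine mul_le_mul_of_nonneg_left ?_ hc
    have h2 : (qv v : ℝ) ^ a = (qv v : ℝ) ^ (a + 1 + ε) * (qv v : ℝ) ^ (-(1 + ε)) := by
      rw [← Real.rpow_add hq]
      congr 1
      ring
    rw [h2]
    exact mul_le_mul_of_nonneg_right (Real.rpow_le_rpow hq.le hX ha) (Real.rpow_nonneg hq.le _)
  refine (Finset.sum_le_sum h1).trans ?_
  rw [← Finset.mul_sum]
  have h2 : ∑ v ∈ plE K X, (qv v : ℝ) ^ (-(1 + ε)) ≤
      ∑' v : HeightOneSpectrum (𝓞 K), (qv v : ℝ) ^ (-(1 + ε)) :=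
    hs.sum_le_tsum _ fun v _ => Real.rpow_nonneg (Nat.cast_nonneg _) _
  calc c * (X : ℝ) ^ (a + 1 + ε) * ∑ v ∈ plE K X, (qv v : ℝ) ^ (-(1 + ε))
      ≤ c * (X : ℝ) ^ (a + 1 + ε) * ∑' v : HeightOneSpectrum (𝓞 K), (qv v : ℝ) ^ (-(1 + ε)) :=
        mul_le_mul_of_nonneg_left h2 (mul_nonneg hc (Real.rpow_nonneg (Nat.cast_nonneg _) _))
    _ = _ := by ring

/-- `(J + 1)² ≤ C (2^J)^ε` -/
lemma sq_le_pow {ε : ℝ} (hε : 0 < ε) : ∃ C : ℝ, 0 ≤ C ∧ ∀ J : ℕ,
    ((J : ℝ) + 1) ^ 2 ≤ C * ((2 : ℝ) ^ J) ^ ε := by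
  set u : ℝ := ε / 2 with hu
  have hu0 : 0 < u := by positivity
  have hl : 0 < Real.log 2 := Real.log_pos (by norm_num)
  set M : ℝ := max 1 (1 / (u * Real.log 2)) with hM
  have hM1 : 1 ≤ M := le_max_left _ _
  refine ⟨M ^ 2, sq_nonneg _, fun J => ?_⟩
  have h1 : (J : ℝ) + 1 ≤ M * ((2 : ℝ) ^ J) ^ u := by
    have h2 : ((2 : ℝ) ^ J) ^ u = Real.exp ((J : ℝ) * (u * Real.log 2)) := by
      rw [← Real.rpow_natCast, ← Real.rpow_mul (by norm_num), Real.rpow_def_of_pos (by norm_num)]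
      congr 1
      ring
    rw [h2]
    have h3 := Real.add_one_le_exp ((J : ℝ) * (u * Real.log 2))
    have h4 : (J : ℝ) + 1 ≤ M * ((J : ℝ) * (u * Real.log 2) + 1) := by
      have h5 : 1 ≤ M * (u * Real.log 2) := by
        have h6 : 1 / (u * Real.log 2) ≤ M := le_max_right _ _
        rw [div_le_iff₀ (by positivity)] at h6
        exact h6
      have h7 : (0 : ℝ) ≤ J := Nat.cast_nonneg _
      nlinarith
    exact h4.trans (mul_le_mul_of_nonneg_left h3 (by linarith))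
  have h2 : (((2 : ℝ) ^ J) ^ u) ^ 2 = ((2 : ℝ) ^ J) ^ ε := by
    rw [← Real.rpow_natCast, ← Real.rpow_mul (by positivity)]
    congr 1
    rw [hu]
    push_cast
    ring
  rw [← h2, ← mul_pow]
  exact pow_le_pow_left₀ (by positivity) h1 2

lemma eta_le (B : κ × ι → ℕ) {M : ℝ} (hM : 0 < M) (hB : ∀ j, M ≤ B j) :
    eta B ≤ Fintype.card (κ × ι) / M := by
  unfold eta
  have h1 : ∀ j ∈ (univ : Finset (κ × ι)), 1 / (2 * (B j : ℝ) + 1) ≤ 1 / M := by
    intro j _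
    refine one_div_le_one_div_of_le hM ?_
    have := hB j
    linarith
  refine (Finset.sum_le_sum h1).trans (le_of_eq ?_)
  rw [Finset.sum_const, Finset.card_univ, nsmul_eq_mul]
  ring

open Classical in
/-- **Almost all points**: let `W_v` be functions on the reductions modulo `v` of mean zero,
with second moment at most `c₁ q_v^{2e-1}` and values at most `c₂ q_v^β`. Then for all but a
proportion `C X₀^{-δ}` of the points of any box with sides at least `N`, the sums of `W_v log q_v`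
over `q_v ≤ X` are at most `X^{e+δ}` for all `X` with `X₀ ≤ X ≤ N^{1/(2β+4)}`. -/
theorem almost_all (ω : Module.Basis ι ℤ (𝓞 K)) {e β c₁ c₂ δ : ℝ} (he : 0 ≤ e) (hβ : 0 ≤ β)
    (hc₁ : 0 ≤ c₁) (hc₂ : 0 ≤ c₂) (hδ : 0 < δ)
    (W : ∀ v : HeightOneSpectrum (𝓞 K), (κ → kv v) → ℝ) (h0 : ∀ v, rmean (W v) = 0)
    (hV : ∀ v, rmean (fun a => W v a ^ 2) ≤ c₁ * (qv v : ℝ) ^ (2 * e - 1))
    (hS : ∀ v a, |W v a| ≤ c₂ * (qv v : ℝ) ^ β) :
    ∃ C : ℝ, 0 < C ∧ ∀ (N : ℕ) (B : κ × ι → ℕ), (∀ j, N ≤ B j) → ∀ X₀ : ℝ, 1 ≤ X₀ →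
      (((MV.box B).filter fun x => ∃ X : ℕ, X₀ ≤ X ∧ (X : ℝ) ^ (2 * β + 4) ≤ N ∧
        (X : ℝ) ^ (e + δ) < |∑ v ∈ plE K X, Real.log (qv v) *
          W v (redG v κ (ptG ω κ x))|).card : ℝ) ≤ C * X₀ ^ (-δ) * (MV.box B).card := by
  set ε : ℝ := δ / 10 with hε
  have hε0 : 0 < ε := by positivity
  set Z0 : ℝ := ∑' v : HeightOneSpectrum (𝓞 K), (qv v : ℝ) ^ (-(1 + ε)) with hZ0
  have hZ00 : 0 ≤ Z0 := tsum_nonneg fun v => Real.rpow_nonneg (Nat.cast_nonneg _) _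
  -- the functions with the logarithm
  set W' : ∀ v : HeightOneSpectrum (𝓞 K), (κ → kv v) → ℝ := fun v a => Real.log (qv v) * W v a
    with hW'
  set V' : HeightOneSpectrum (𝓞 K) → ℝ := fun v =>
    c₁ / ε ^ 2 * (qv v : ℝ) ^ (2 * e - 1 + 2 * ε) with hV'
  set S' : HeightOneSpectrum (𝓞 K) → ℝ := fun v => c₂ / ε * (qv v : ℝ) ^ (β + ε) with hS'
  have hlog0 : ∀ v : HeightOneSpectrum (𝓞 K), 0 ≤ Real.log (qv v) := fun v =>
    Real.log_nonneg (one_le_qvR v)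
  have hlog : ∀ v : HeightOneSpectrum (𝓞 K), Real.log (qv v) ≤ (qv v : ℝ) ^ ε / ε := fun v =>
    log_le_rpow (one_le_qvR v) hε0
  have hq0 : ∀ v : HeightOneSpectrum (𝓞 K), (0 : ℝ) < qv v := fun v => by
    linarith [one_le_qvR v]
  have g0 : ∀ v, rmean (W' v) = 0 := by
    intro v
    rw [hW']
    beta_reduce
    rw [rmean_const_mul, h0, mul_zero]
  have gV : ∀ v, rmean (fun a => W' v a ^ 2) ≤ V' v := by
    intro v
    have h1 : (fun a => W' v a ^ 2) = fun a => Real.log (qv v) ^ 2 * W v a ^ 2 := by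
      funext a
      rw [hW']
      ring
    rw [h1, rmean_const_mul]
    have h2 : Real.log (qv v) ^ 2 ≤ ((qv v : ℝ) ^ ε / ε) ^ 2 :=
      pow_le_pow_left₀ (hlog0 v) (hlog v) 2
    have h3 : 0 ≤ c₁ * (qv v : ℝ) ^ (2 * e - 1) := mul_nonneg hc₁ (Real.rpow_nonneg (hq0 v).le _)
    refine (mul_le_mul_of_nonneg_left (hV v) (sq_nonneg _)).trans
      ((mul_le_mul_of_nonneg_right h2 h3).trans (le_of_eq ?_))
    rw [hV']
    beta_reduce
    rw [div_pow, ← Real.rpow_natCast ((qv v : ℝ) ^ ε) 2, ← Real.rpow_mul (hq0 v).le,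
      Real.rpow_add (hq0 v) (2 * e - 1) (2 * ε)]
    have h4 : ε * ((2 : ℕ) : ℝ) = 2 * ε := by push_cast; ring
    rw [h4]
    ring
  have gS : ∀ v a, |W' v a| ≤ S' v := by
    intro v a
    have h1 : |W' v a| = Real.log (qv v) * |W v a| := by
      rw [hW']
      beta_reduce
      rw [abs_mul, abs_of_nonneg (hlog0 v)]
    rw [h1]
    refine (mul_le_mul (hlog v) (hS v a) (abs_nonneg _) (by positivity)).trans (le_of_eq ?_)
    rw [hS']
    beta_reduce
    rw [Real.rpow_add (hq0 v)]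
    ring
  obtain ⟨C5, hC50, hC5⟩ := sq_le_pow hε0
  -- constants
  set C1 : ℝ := c₁ / ε ^ 2 * Z0 with hC1
  set C2 : ℝ := c₂ / ε * Z0 with hC2
  set γ : ℝ := 2 * β + 4 with hγ
  set D : ℝ := (Fintype.card (κ × ι) : ℝ) with hD
  have hC10 : 0 ≤ C1 := by positivity
  have hC20 : 0 ≤ C2 := by positivity
  have hD0 : 0 ≤ D := Nat.cast_nonneg _
  set C4 : ℝ := C1 + C2 ^ 2 * (D * 2 ^ γ) with hC4
  have hC40 : 0 ≤ C4 := by positivity
  set C6 : ℝ := C5 * C4 * 2 ^ (2 * (e + δ)) with hC6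
  have hC60 : 0 ≤ C6 := by positivity
  set ρ : ℝ := (2 : ℝ) ^ (-(δ / 2)) with hρ
  have hρ0 : 0 < ρ := Real.rpow_pos_of_pos (by norm_num) _
  have hρ1 : ρ < 1 := Real.rpow_lt_one_of_one_lt_of_neg (by norm_num) (by linarith)
  have hρC : 0 < (1 - ρ)⁻¹ := inv_pos.2 (by linarith)
  refine ⟨(C6 + 1) * (1 - ρ)⁻¹, by positivity, fun N B hB X₀ hX₀ => ?_⟩
  have hbox : (0 : ℝ) < (MV.box B).card := by exact_mod_cast card_box_pos B
  -- the bound at one dyadic scale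
  set Bad : ℕ → Finset (κ × ι → ℤ) := fun J => (MV.box B).filter fun x => ∃ X : ℕ, X ≤ 2 ^ J ∧
    ((2 : ℝ) ^ J / 2) ^ (e + δ) < |ps ω W' x X| with hBad
  have hdy : ∀ J : ℕ, X₀ ≤ (2 : ℝ) ^ J → ((2 : ℝ) ^ J / 2) ^ γ ≤ N →
      ((Bad J).card : ℝ) ≤ (MV.box B).card * (C6 * (X₀ ^ (-δ) * ρ ^ J)) := by
    intro J hJ0 hJN
    set Y : ℝ := (2 : ℝ) ^ J with hY
    have hY1 : 1 ≤ Y := one_le_pow₀ (by norm_num)
    have hY0 : 0 < Y := by linarith
    have hcast : (((2 ^ J : ℕ)) : ℝ) = Y := by push_cast; rfl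
    have hm := markov ω W' g0 gV gS B J (lam := (Y / 2) ^ (e + δ))
      (Real.rpow_nonneg (by positivity) _)
    -- bounds for the two sums
    have b1 : ∑ v ∈ plE K (2 ^ J), V' v ≤ C1 * Y ^ (2 * e + 4 * ε) := by
      have h1 := sum_le_of (K := K) (f := V') (c := c₁ / ε ^ 2) (a := 2 * e - 1 + 2 * ε) (ε := ε)
        (by positivity) hε0 (by linarith) (fun v => le_refl _) (X := 2 ^ J)
      rw [hcast] at h1
      refine h1.trans (mul_le_mul_of_nonneg_left ?_ hC10)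
      exact Real.rpow_le_rpow_of_exponent_le hY1 (by linarith)
    have b2 : ∑ v ∈ plE K (2 ^ J), S' v * qv v ≤ C2 * Y ^ (β + 2 + 2 * ε) := by
      have h1 := sum_le_of (K := K) (f := fun v => S' v * qv v) (c := c₂ / ε) (a := β + 1 + ε)
        (ε := ε) (by positivity) hε0 (by linarith) (fun v => by
          rw [hS']
          beta_reduce
          have e1 : β + 1 + ε = β + ε + 1 := by ring
          rw [e1, Real.rpow_add_one (hq0 v).ne', mul_assoc]) (X := 2 ^ J)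
      rw [hcast] at h1
      refine h1.trans (mul_le_mul_of_nonneg_left ?_ hC20)
      exact Real.rpow_le_rpow_of_exponent_le hY1 (by linarith)
    have b3 : eta B ≤ D * 2 ^ γ / Y ^ γ := by
      have hM : (0 : ℝ) < (Y / 2) ^ γ := Real.rpow_pos_of_pos (by positivity) _
      have h1 := eta_le B hM (fun j => hJN.trans (by exact_mod_cast hB j))
      refine h1.trans (le_of_eq ?_)
      rw [Real.div_rpow hY0.le (by norm_num)]
      have h2 : (0 : ℝ) < Y ^ γ := Real.rpow_pos_of_pos hY0 _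
      have h3 : (0 : ℝ) < (2 : ℝ) ^ γ := Real.rpow_pos_of_pos (by norm_num) _
      field_simp
      rfl
    have b4 : (∑ v ∈ plE K (2 ^ J), S' v * qv v) ^ 2 * eta B ≤
        C2 ^ 2 * (D * 2 ^ γ) * Y ^ (2 * e + 4 * ε) := by
      have h1 : (∑ v ∈ plE K (2 ^ J), S' v * qv v) ^ 2 ≤ (C2 * Y ^ (β + 2 + 2 * ε)) ^ 2 := by
        refine pow_le_pow_left₀ ?_ b2 2
        refine Finset.sum_nonneg fun v _ => mul_nonneg ?_ (hq0 v).le
        rw [hS']
        exact mul_nonneg (by positivity) (Real.rpow_nonneg (hq0 v).le _)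
      refine (mul_le_mul h1 b3 (eta_nonneg B) (sq_nonneg _)).trans ?_
      have h2 : (C2 * Y ^ (β + 2 + 2 * ε)) ^ 2 * (D * 2 ^ γ / Y ^ γ) =
          C2 ^ 2 * (D * 2 ^ γ) * ((Y ^ (β + 2 + 2 * ε)) ^ 2 / Y ^ γ) := by ring
      rw [h2]
      refine mul_le_mul_of_nonneg_left ?_ (by positivity)
      rw [← Real.rpow_natCast (Y ^ (β + 2 + 2 * ε)) 2, ← Real.rpow_mul hY0.le,
        ← Real.rpow_sub hY0]
      refine Real.rpow_le_rpow_of_exponent_le hY1 ?_
      rw [hγ]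
      push_cast
      linarith
    have b5 : ((J : ℝ) + 1) ^ 2 * (∑ v ∈ plE K (2 ^ J), V' v +
        (∑ v ∈ plE K (2 ^ J), S' v * qv v) ^ 2 * eta B) ≤ C5 * C4 * Y ^ (2 * e + 5 * ε) := by
      have h1 : ∑ v ∈ plE K (2 ^ J), V' v + (∑ v ∈ plE K (2 ^ J), S' v * qv v) ^ 2 * eta B ≤
          C4 * Y ^ (2 * e + 4 * ε) := by
        refine (add_le_add b1 b4).trans (le_of_eq ?_)
        rw [hC4]
        ring
      have h2 : 0 ≤ C4 * Y ^ (2 * e + 4 * ε) := mul_nonneg hC40 (Real.rpow_nonneg hY0.le _)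
      refine (mul_le_mul_of_nonneg_left h1 (sq_nonneg _)).trans
        ((mul_le_mul_of_nonneg_right (hC5 J) h2).trans (le_of_eq ?_))
      have e1 : 2 * e + 5 * ε = ε + (2 * e + 4 * ε) := by ring
      rw [e1, Real.rpow_add hY0 ε (2 * e + 4 * ε)]
      ring
    have hlam : ((Y / 2) ^ (e + δ)) ^ 2 = Y ^ (2 * (e + δ)) / 2 ^ (2 * (e + δ)) := by
      rw [← Real.rpow_natCast, ← Real.rpow_mul (by positivity),
        Real.div_rpow hY0.le (by norm_num)]
      push_cast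
      rw [mul_comm (e + δ) 2]
    rw [hlam] at hm
    have h2p : (0 : ℝ) < 2 ^ (2 * (e + δ)) := Real.rpow_pos_of_pos (by norm_num) _
    have hYp : (0 : ℝ) < Y ^ (2 * (e + δ)) := Real.rpow_pos_of_pos hY0 _
    have h3 : ((Bad J).card : ℝ) * (Y ^ (2 * (e + δ)) / 2 ^ (2 * (e + δ))) ≤
        (MV.box B).card * (C5 * C4 * Y ^ (2 * e + 5 * ε)) :=
      hm.trans (mul_le_mul_of_nonneg_left b5 hbox.le)
    have h4 : ((Bad J).card : ℝ) ≤ (MV.box B).card * (C6 * Y ^ (-(3 / 2 * δ))) := by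
      have h5 : (MV.box B).card * (C5 * C4 * Y ^ (2 * e + 5 * ε)) =
          ((MV.box B).card * (C6 * Y ^ (-(3 / 2 * δ)))) *
            (Y ^ (2 * (e + δ)) / 2 ^ (2 * (e + δ))) := by
        have h6 : Y ^ (2 * e + 5 * ε) = Y ^ (-(3 / 2 * δ)) * Y ^ (2 * (e + δ)) := by
          rw [← Real.rpow_add hY0]
          congr 1
          rw [hε]
          ring
        rw [h6, hC6]
        field_simp
      rw [h5] at h3
      exact le_of_mul_le_mul_right h3 (by positivity)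
    refine h4.trans (mul_le_mul_of_nonneg_left (mul_le_mul_of_nonneg_left ?_ hC60) hbox.le)
    have h5 : Y ^ (-(3 / 2 * δ)) = Y ^ (-δ) * Y ^ (-(δ / 2)) := by
      rw [← Real.rpow_add hY0]
      congr 1
      ring
    rw [h5]
    have h6 : Y ^ (-(δ / 2)) = ρ ^ J := by
      rw [hY, hρ, ← Real.rpow_natCast, ← Real.rpow_natCast, ← Real.rpow_mul (by norm_num),
        ← Real.rpow_mul (by norm_num)]
      congr 1
      ring
    rw [h6]
    refine mul_le_mul_of_nonneg_right ?_ (by positivity)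
    exact Real.rpow_le_rpow_of_nonpos (by linarith) hJ0 (by linarith)
  -- covering of the bad points by the dyadic scales
  set G : Finset ℕ := (range (N + 1)).filter fun J => X₀ ≤ (2 : ℝ) ^ J ∧
    ((2 : ℝ) ^ J / 2) ^ γ ≤ N with hG
  have hcov : ((MV.box B).filter fun x => ∃ X : ℕ, X₀ ≤ X ∧ (X : ℝ) ^ γ ≤ N ∧
        (X : ℝ) ^ (e + δ) < |∑ v ∈ plE K X, Real.log (qv v) *
          W v (redG v κ (ptG ω κ x))|) ⊆ G.biUnion Bad := by
    intro x hx
    obtain ⟨hxB, X, hX0, hXN, hlt⟩ := Finset.mem_filter.1 hx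
    rw [Finset.mem_biUnion]
    have hX1 : 1 ≤ X := by
      have : (1 : ℝ) ≤ X := hX₀.trans hX0
      exact_mod_cast this
    have hX2 : 2 ≤ X := by
      by_contra hcon
      have h1 : X = 1 := by omega
      rw [h1, plE_one (le_refl 1), Finset.sum_empty, abs_zero] at hlt
      have h2 : (0 : ℝ) ≤ ((1 : ℕ) : ℝ) ^ (e + δ) := Real.rpow_nonneg (by simp) _
      linarith
    have hc1 : X ≤ 2 ^ Nat.clog 2 X := Nat.le_pow_clog (by norm_num) X
    have hc2 : 2 ^ (Nat.clog 2 X - 1) < X := Nat.pow_pred_clog_lt_self (by norm_num) (by omega)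
    have hc3 : 1 ≤ Nat.clog 2 X := Nat.clog_pos (by norm_num) hX2
    set J := Nat.clog 2 X with hJ
    have hc1' : (X : ℝ) ≤ (2 : ℝ) ^ J := by exact_mod_cast hc1
    have hc2' : (2 : ℝ) ^ J / 2 ≤ X := by
      have h1 : (2 : ℝ) ^ J = 2 ^ (J - 1) * 2 := by
        rw [← pow_succ]
        congr 1
        omega
      rw [h1, mul_div_assoc, div_self (by norm_num : (2 : ℝ) ≠ 0), mul_one]
      exact_mod_cast hc2.le
    have hYn : (0 : ℝ) ≤ (2 : ℝ) ^ J / 2 := by positivity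
    have hγ0 : 0 ≤ γ := by rw [hγ]; linarith
    refine ⟨J, ?_, ?_⟩
    · rw [hG, Finset.mem_filter, Finset.mem_range]
      refine ⟨?_, hX0.trans hc1', (Real.rpow_le_rpow hYn hc2' hγ0).trans hXN⟩
      have h1 : J < 2 ^ J := Nat.lt_two_pow_self
      have h2 : (X : ℝ) ≤ N := by
        refine le_trans ?_ hXN
        have h3 : (X : ℝ) ^ (1 : ℝ) ≤ (X : ℝ) ^ γ :=
          Real.rpow_le_rpow_of_exponent_le (by exact_mod_cast hX1) (by rw [hγ]; linarith)
        rwa [Real.rpow_one] at h3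
      have h3 : X ≤ N := by exact_mod_cast h2
      have h4 : J ≤ X := by
        have h5 : J - 1 < 2 ^ (J - 1) := Nat.lt_two_pow_self
        omega
      omega
    · rw [hBad, Finset.mem_filter]
      refine ⟨hxB, X, hc1, lt_of_le_of_lt ?_ hlt⟩
      exact Real.rpow_le_rpow hYn hc2' (by linarith)
  have h1 : (((MV.box B).filter fun x => ∃ X : ℕ, X₀ ≤ X ∧ (X : ℝ) ^ γ ≤ N ∧
        (X : ℝ) ^ (e + δ) < |∑ v ∈ plE K X, Real.log (qv v) *
          W v (redG v κ (ptG ω κ x))|).card : ℝ) ≤ ∑ J ∈ G, ((Bad J).card : ℝ) := by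
    have h2 := (Finset.card_le_card hcov).trans Finset.card_biUnion_le
    exact_mod_cast h2
  refine h1.trans ?_
  have h2 : ∑ J ∈ G, ((Bad J).card : ℝ) ≤ ∑ J ∈ G, (MV.box B).card *
      (C6 * (X₀ ^ (-δ) * ρ ^ J)) := Finset.sum_le_sum fun J hJ => by
    obtain ⟨-, h3, h4⟩ := Finset.mem_filter.1 hJ
    exact hdy J h3 h4
  refine h2.trans ?_
  have h3 : ∑ J ∈ G, (MV.box B).card * (C6 * (X₀ ^ (-δ) * ρ ^ J)) =
      (MV.box B).card * (C6 * X₀ ^ (-δ)) * ∑ J ∈ G, ρ ^ J := by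
    rw [Finset.mul_sum]
    refine Finset.sum_congr rfl fun J _ => ?_
    ring
  have h4 : ∑ J ∈ G, ρ ^ J ≤ (1 - ρ)⁻¹ := by
    rw [← tsum_geometric_of_lt_one hρ0.le hρ1]
    exact (summable_geometric_of_lt_one hρ0.le hρ1).sum_le_tsum _ fun J _ => by positivity
  have hXp : 0 ≤ X₀ ^ (-δ) := Real.rpow_nonneg (by linarith) _
  rw [h3]
  calc (MV.box B).card * (C6 * X₀ ^ (-δ)) * ∑ J ∈ G, ρ ^ J
      ≤ (MV.box B).card * (C6 * X₀ ^ (-δ)) * (1 - ρ)⁻¹ :=
        mul_le_mul_of_nonneg_left h4 (by positivity)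
    _ ≤ (MV.box B).card * ((C6 + 1) * X₀ ^ (-δ)) * (1 - ρ)⁻¹ := by
        refine mul_le_mul_of_nonneg_right (mul_le_mul_of_nonneg_left ?_ hbox.le) hρC.le
        exact mul_le_mul_of_nonneg_right (by linarith) hXp
    _ = _ := by ring

end

end Pool.Agent.T6.H9.QM
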