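import Pool.Agent.T6.H9.MV.Box

/-!
# Quantitative equidistribution of boxes in finite quotients

Owner helper9.
-/

set_option autoImplicit false
set_option linter.unusedSectionVars false
set_option linter.style.haveILetI false

open Finset

namespace Pool.Agent.T6.H9.QM

open Pool.Agent.T6.H9.MV

section

variable {J : Type*} [Fintype J] [DecidableEq J]

/-- distance of product measures -/
lemma l1_prod {A : Type*} [Fintype A] (p u : J → A → ℝ) (hp0 : ∀ j a, 0 ≤ p j a)
    (hu0 : ∀ j a, 0 ≤ u j a) (hp : ∀ j, ∑ a, p j a = 1) (hu : ∀ j, ∑ a, u j a = 1) :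
    ∑ r : J → A, |∏ j, p j (r j) - ∏ j, u j (r j)| ≤ ∑ j, ∑ a, |p j a - u j a| := by
  classical
  have key : ∀ s : Finset J, ∑ r : J → A,
      |∏ j, (if j ∈ s then p j (r j) else u j (r j)) - ∏ j, u j (r j)| ≤
        ∑ j ∈ s, ∑ a, |p j a - u j a| := by
    intro s
    induction s using Finset.induction_on with
    | empty => simp
    | insert i s hi ih =>
      rw [Finset.sum_insert hi]
      have h1 : ∀ r : J → A,
          |∏ j, (if j ∈ insert i s then p j (r j) else u j (r j)) - ∏ j, u j (r j)| ≤
          (∏ j, (if j ∈ s then p j (r j) else if j = i then |p j (r j) - u j (r j)|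
            else u j (r j))) +
          |∏ j, (if j ∈ s then p j (r j) else u j (r j)) - ∏ j, u j (r j)| := by
        intro r
        have h2 : ∏ j, (if j ∈ s then p j (r j) else if j = i then |p j (r j) - u j (r j)|
            else u j (r j)) =
            |∏ j, (if j ∈ insert i s then p j (r j) else u j (r j)) -
              ∏ j, (if j ∈ s then p j (r j) else u j (r j))| := by
          rw [← Finset.mul_prod_erase univ _ (Finset.mem_univ i),
            ← Finset.mul_prod_erase univ (fun j => if j ∈ insert i s then p j (r j) else u j (r j))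
              (Finset.mem_univ i),
            ← Finset.mul_prod_erase univ (fun j => if j ∈ s then p j (r j) else u j (r j))
              (Finset.mem_univ i)]
          have e1 : ∏ j ∈ univ.erase i, (if j ∈ s then p j (r j) else if j = i then
              |p j (r j) - u j (r j)| else u j (r j)) =
              ∏ j ∈ univ.erase i, (if j ∈ s then p j (r j) else u j (r j)) := by
            refine Finset.prod_congr rfl fun j hj => ?_
            rw [if_neg (Finset.ne_of_mem_erase hj)]
          have e2 : ∏ j ∈ univ.erase i, (if j ∈ insert i s then p j (r j) else u j (r j)) =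
              ∏ j ∈ univ.erase i, (if j ∈ s then p j (r j) else u j (r j)) := by
            refine Finset.prod_congr rfl fun j hj => ?_
            have h3 : (j ∈ insert i s) = (j ∈ s) := by
              rw [Finset.mem_insert]
              exact propext ⟨fun h => h.resolve_left (Finset.ne_of_mem_erase hj), Or.inr⟩
            simp only [h3]
          rw [e1, e2, if_neg hi, if_pos rfl, if_pos (Finset.mem_insert_self i s), if_neg hi,
            ← sub_mul, abs_mul]
          congr 1
          rw [abs_of_nonneg]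
          refine Finset.prod_nonneg fun j _ => ?_
          split_ifs
          · exact hp0 _ _
          · exact hu0 _ _
        rw [h2]
        exact abs_sub_le _ _ _
      refine (Finset.sum_le_sum fun r _ => h1 r).trans ?_
      rw [Finset.sum_add_distrib]
      refine add_le_add (le_of_eq ?_) ih
      have e0 : ∑ r : J → A, ∏ j, (if j ∈ s then p j (r j) else if j = i then
          |p j (r j) - u j (r j)| else u j (r j)) =
          ∏ j, ∑ a, (if j ∈ s then p j a else if j = i then |p j a - u j a| else u j a) := by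
        rw [Finset.prod_univ_sum, Fintype.piFinset_univ]
      rw [e0, ← Finset.mul_prod_erase univ _ (Finset.mem_univ i)]
      have e3 : ∏ j ∈ univ.erase i, ∑ a, (if j ∈ s then p j a else if j = i then |p j a - u j a|
          else u j a) = 1 := by
        refine Finset.prod_eq_one fun j hj => ?_
        by_cases hjs : j ∈ s
        · simp only [if_pos hjs]
          exact hp j
        · simp only [if_neg hjs, if_neg (Finset.ne_of_mem_erase hj)]
          exact hu j
      rw [e3, mul_one]
      simp only [if_neg hi, if_true]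
  have h := key univ
  simpa using h

lemma sum_cnt (m : ℕ) [NeZero m] (B : ℕ) : ∑ r : ZMod m, (cnt m B r : ℝ) = 2 * B + 1 := by
  unfold cnt
  have h1 : ((Finset.Icc (-(B : ℤ)) B).card : ℝ) = 2 * B + 1 := by
    rw [Int.card_Icc]
    have h2 : ((B : ℤ) + 1 - -(B : ℤ)).toNat = 2 * B + 1 := by omega
    rw [h2]
    push_cast
    rfl
  rw [← h1, Finset.card_eq_sum_card_fiberwise (s := Finset.Icc (-(B : ℤ)) B)
    (f := fun x : ℤ => (x : ZMod m)) (t := univ) (fun _ _ => Finset.mem_coe.2 (Finset.mem_univ _))]
  push_cast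
  rfl

/-- the deviation of a function of the residues from its mean -/
lemma dev_zmod (m : ℕ) [NeZero m] (B : J → ℕ) (G : (J → ZMod m) → ℂ) {S : ℝ}
    (hG : ∀ r, ‖G r‖ ≤ S) :
    ‖avg (box B) (fun x => G (fun j => (x j : ZMod m))) -
      (∑ r, G r) / (Fintype.card (J → ZMod m) : ℂ)‖ ≤ S * ∑ j, (m : ℝ) / (2 * B j + 1) := by
  have h1 : avg (box B) (fun x => G (fun j => (x j : ZMod m))) =
      ∑ r : J → ZMod m, G r * ((∏ j, ((cnt m (B j) (r j) : ℝ) / (2 * (B j : ℝ) + 1)) : ℝ) : ℂ) := by
    unfold avg
    have h2 : ∑ x ∈ box B, G (fun j => (x j : ZMod m)) =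
        ∑ r : J → ZMod m, G r * ∏ j, (cnt m (B j) (r j) : ℂ) := by
      rw [← Finset.sum_fiberwise (box B) (fun x => (fun j => (x j : ZMod m) : J → ZMod m))]
      refine Finset.sum_congr rfl fun r _ => ?_
      have h3 : ∑ x ∈ (box B).filter (fun x => (fun j => (x j : ZMod m)) = r),
          G (fun j => (x j : ZMod m)) =
          ∑ x ∈ (box B).filter (fun x => (fun j => (x j : ZMod m)) = r), G r := by
        refine Finset.sum_congr rfl fun x hx => ?_
        rw [(Finset.mem_filter.1 hx).2]
      rw [h3, Finset.sum_const, nsmul_eq_mul, mul_comm]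
      congr 1
      have h4 : (box B).filter (fun x => (fun j => (x j : ZMod m)) = r) =
          Fintype.piFinset fun j =>
            (Finset.Icc (-(B j : ℤ)) (B j)).filter (fun x : ℤ => (x : ZMod m) = r j) := by
        ext x
        simp only [Finset.mem_filter, Fintype.mem_piFinset, MV.box]
        constructor
        · rintro ⟨h5, h6⟩ j
          exact ⟨h5 j, congrFun h6 j⟩
        · intro h5
          exact ⟨fun j => (h5 j).1, funext fun j => (h5 j).2⟩
      rw [h4, Fintype.card_piFinset]
      push_cast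
      rfl
    rw [h2, card_box, Finset.sum_div]
    refine Finset.sum_congr rfl fun r _ => ?_
    push_cast
    rw [Finset.prod_div_distrib, mul_div_assoc]
  have h2 : (∑ r, G r) / (Fintype.card (J → ZMod m) : ℂ) =
      ∑ r : J → ZMod m, G r * ((∏ _j : J, (1 / (m : ℝ)) : ℝ) : ℂ) := by
    rw [Finset.sum_div]
    refine Finset.sum_congr rfl fun r _ => ?_
    rw [Finset.prod_const, Finset.card_univ, Fintype.card_fun, ZMod.card, div_eq_mul_inv]
    push_cast
    rw [one_div, inv_pow]
  rw [h1, h2, ← Finset.sum_sub_distrib]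
  have hS : 0 ≤ S := (norm_nonneg _).trans (hG fun _ => 0)
  have hm : (0 : ℝ) < m := by exact_mod_cast Nat.pos_of_ne_zero (NeZero.ne m)
  have h3 : ∀ r : J → ZMod m,
      ‖G r * ((∏ j, ((cnt m (B j) (r j) : ℝ) / (2 * (B j : ℝ) + 1)) : ℝ) : ℂ) -
        G r * ((∏ _j : J, (1 / (m : ℝ)) : ℝ) : ℂ)‖ ≤
      S * |∏ j, ((cnt m (B j) (r j) : ℝ) / (2 * (B j : ℝ) + 1)) - ∏ _j : J, (1 / (m : ℝ))| := by
    intro r
    rw [← mul_sub, norm_mul, ← Complex.ofReal_sub, Complex.norm_real, Real.norm_eq_abs]
    exact mul_le_mul_of_nonneg_right (hG r) (abs_nonneg _)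
  refine (norm_sum_le _ _).trans ((Finset.sum_le_sum fun r _ => h3 r).trans ?_)
  rw [← Finset.mul_sum]
  refine mul_le_mul_of_nonneg_left ?_ hS
  have h4 := l1_prod (J := J) (A := ZMod m)
    (fun j a => (cnt m (B j) a : ℝ) / (2 * (B j : ℝ) + 1)) (fun _ _ => 1 / (m : ℝ))
    (fun j a => by positivity) (fun j a => by positivity)
    (fun j => by
      rw [← Finset.sum_div, sum_cnt]
      have : (0 : ℝ) < 2 * (B j : ℝ) + 1 := by positivity
      exact div_self this.ne')
    (fun j => by
      rw [Finset.sum_const, Finset.card_univ, ZMod.card, nsmul_eq_mul]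
      field_simp)
  refine h4.trans (Finset.sum_le_sum fun j _ => ?_)
  have h5 : (0 : ℝ) < 2 * (B j : ℝ) + 1 := by positivity
  have h6 : ∀ a : ZMod m, |(cnt m (B j) a : ℝ) / (2 * (B j : ℝ) + 1) - 1 / m| ≤
      1 / (2 * (B j : ℝ) + 1) := by
    intro a
    have h7 : (cnt m (B j) a : ℝ) / (2 * (B j : ℝ) + 1) - 1 / m =
        ((cnt m (B j) a : ℝ) - (2 * (B j : ℝ) + 1) / m) / (2 * (B j : ℝ) + 1) := by
      field_simp
    rw [h7, abs_div, abs_of_pos h5]
    exact div_le_div_of_nonneg_right (cnt_bound m (B j) a) h5.le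
  refine (Finset.sum_le_sum fun a _ => h6 a).trans (le_of_eq ?_)
  rw [Finset.sum_const, Finset.card_univ, ZMod.card, nsmul_eq_mul]
  ring

/-- **Quantitative equidistribution**: for a surjection `φ` onto a finite abelian group killed by
`m`, the mean over the box of a function bounded by `S` differs from the mean over the group by at
most `S ∑ m / (2 B_j + 1)`. -/
theorem dev_hom {Q : Type*} [AddCommGroup Q] [Finite Q] (φ : (J → ℤ) →+ Q)
    (hφ : Function.Surjective φ) {m : ℕ} (hm0 : m ≠ 0) (hm : ∀ q : Q, m • q = 0) (B : J → ℕ)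
    (g : Q → ℂ) {S : ℝ} (hg : ∀ q, ‖g q‖ ≤ S) :
    ‖avg (box B) (fun x => g (φ x)) - fmean g‖ ≤ S * ∑ j, (m : ℝ) / (2 * B j + 1) := by
  haveI := Fintype.ofFinite Q
  haveI : NeZero m := ⟨hm0⟩
  let ψ : (J → ZMod m) → Q := fun r => φ (fun j => ((r j).val : ℤ))
  have hkill : ∀ x y : J → ℤ, (∀ j, (x j : ZMod m) = (y j : ZMod m)) → φ x = φ y := by
    intro x y hxy
    have h1 : ∀ j, ∃ c : ℤ, x j = y j + m * c := by
      intro j
      have h2 := (ZMod.intCast_eq_intCast_iff_dvd_sub _ _ _).1 (hxy j)
      obtain ⟨c, hc⟩ := h2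
      exact ⟨-c, by linarith⟩
    choose c hc using h1
    have h3 : x = y + m • c := by
      funext j
      simp [hc j]
    rw [h3, map_add, map_nsmul, hm, add_zero]
  have hψφ : ∀ x : J → ℤ, ψ (fun j => (x j : ZMod m)) = φ x := by
    intro x
    refine hkill _ _ fun j => ?_
    simp
  have h1 := dev_zmod (J := J) m B (fun r => g (ψ r)) (fun r => hg _)
  have h2 : (∑ r, g (ψ r)) / (Fintype.card (J → ZMod m) : ℂ) = fmean g := by
    rw [fmean_eq]
    refine mean_eq_of_shift ψ (fun q => ?_) g
    obtain ⟨x, hx⟩ := hφ q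
    refine ⟨fun j => (x j : ZMod m), fun r => ?_⟩
    rw [← hx]
    change φ _ = φ _ + φ x
    rw [← map_add]
    refine hkill _ _ fun j => ?_
    simp
  rw [h2] at h1
  have h3 : avg (box B) (fun x => g (ψ fun j => (x j : ZMod m))) =
      avg (box B) (fun x => g (φ x)) := by
    unfold avg
    simp only [hψφ]
  rwa [h3] at h1

end

end Pool.Agent.T6.H9.QM
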