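import Pool.Agent.T6.H9.QM.Var

/-!
# A maximal inequality for sums of local functions over the places of a number field

Owner helper9.
-/

set_option autoImplicit false
set_option linter.unusedSectionVars false
set_option linter.style.haveILetI false
set_option linter.unusedVariables false

open Finset NumberField IsDedekindDomain

namespace Pool.Agent.T6.H9.QM

open Pool.Agent.T6.H9.MV Pool.Agent.T6.H9.HY

section rm

/-- the squares of the dyadic increments of level `j` -/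
noncomputable def lev (s : ℕ → ℝ) (J j : ℕ) : ℝ :=
  ∑ k ∈ range (2 ^ (J - j)), (s (2 ^ j * (k + 1)) - s (2 ^ j * k)) ^ 2

lemma lev_nonneg (s : ℕ → ℝ) (J j : ℕ) : 0 ≤ lev s J j :=
  Finset.sum_nonneg fun _ _ => sq_nonneg _

lemma rm_abs (J : ℕ) : ∀ (s : ℕ → ℝ) (X : ℕ), X ≤ 2 ^ J →
    |s X - s 0| ≤ ∑ j ∈ range (J + 1), √(lev s J j) := by
  induction J with
  | zero =>
    intro s X hX
    rw [Finset.sum_range_one]
    unfold lev
    simp only [pow_zero, Nat.sub_zero, Finset.sum_range_one, one_mul, zero_add, mul_zero]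
    rw [Real.sqrt_sq_eq_abs]
    have h1 : X = 0 ∨ X = 1 := by
      rw [pow_zero] at hX
      omega
    rcases h1 with rfl | rfl
    · rw [sub_self, abs_zero]
      exact abs_nonneg _
    · exact le_refl _
  | succ J ih =>
    intro s X hX
    rw [Finset.sum_range_succ']
    have h1 := ih (fun k => s (2 * k)) (X / 2) (by rw [pow_succ] at hX; omega)
    have h2 : ∀ j ∈ range (J + 1), lev (fun k => s (2 * k)) J j = lev s (J + 1) (j + 1) := by
      intro j hj
      unfold lev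
      have e1 : J + 1 - (j + 1) = J - j := by omega
      rw [e1]
      refine Finset.sum_congr rfl fun k _ => ?_
      have e2 : 2 * (2 ^ j * (k + 1)) = 2 ^ (j + 1) * (k + 1) := by ring
      have e3 : 2 * (2 ^ j * k) = 2 ^ (j + 1) * k := by ring
      beta_reduce
      rw [e2, e3]
    rw [Finset.sum_congr rfl fun j hj => by rw [h2 j hj]] at h1
    have h3 : |s X - s (2 * (X / 2))| ≤ √(lev s (J + 1) 0) := by
      rcases Nat.mod_two_eq_zero_or_one X with h | h
      · have h4 : 2 * (X / 2) = X := by omega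
        rw [h4, sub_self, abs_zero]
        exact Real.sqrt_nonneg _
      · have h4 : 2 * (X / 2) + 1 = X := by omega
        refine Real.le_sqrt_of_sq_le ?_
        rw [sq_abs]
        unfold lev
        have h5 : 2 * (X / 2) ∈ range (2 ^ (J + 1 - 0)) := by
          rw [Finset.mem_range, Nat.sub_zero]
          omega
        have h6 := Finset.single_le_sum (f := fun k =>
          (s (2 ^ 0 * (k + 1)) - s (2 ^ 0 * k)) ^ 2) (fun _ _ => sq_nonneg _) h5
        simp only [pow_zero, one_mul] at h6 ⊢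
        rw [h4] at h6
        exact h6
    have h4 : |s X - s 0| ≤ |s X - s (2 * (X / 2))| + |s (2 * (X / 2)) - s 0| :=
      abs_sub_le _ _ _
    have h5 : |s (2 * (X / 2)) - s 0| ≤ ∑ j ∈ range (J + 1), √(lev s (J + 1) (j + 1)) := by
      simpa using h1
    linarith

lemma rm_sq (J : ℕ) (s : ℕ → ℝ) (X : ℕ) (hX : X ≤ 2 ^ J) :
    (s X - s 0) ^ 2 ≤ (J + 1) * ∑ j ∈ range (J + 1), lev s J j := by
  have h1 := rm_abs J s X hX
  have h2 : (s X - s 0) ^ 2 ≤ (∑ j ∈ range (J + 1), √(lev s J j)) ^ 2 := by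
    rw [← sq_abs]
    exact pow_le_pow_left₀ (abs_nonneg _) h1 2
  refine h2.trans ?_
  have h3 := sq_sum_le_card_mul_sum_sq (s := range (J + 1)) (f := fun j => √(lev s J j))
  rw [Finset.card_range] at h3
  refine h3.trans (le_of_eq ?_)
  push_cast
  congr 1
  refine Finset.sum_congr rfl fun j _ => ?_
  exact Real.sq_sqrt (lev_nonneg _ _ _)

lemma sum_sq_le {N : ℕ} {a : ℕ → ℝ} (ha : ∀ k, 0 ≤ a k) :
    ∑ k ∈ range N, a k ^ 2 ≤ (∑ k ∈ range N, a k) ^ 2 := by
  rw [sq, Finset.sum_mul]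
  refine Finset.sum_le_sum fun k hk => ?_
  rw [sq]
  exact mul_le_mul_of_nonneg_left (Finset.single_le_sum (fun i _ => ha i) hk) (ha k)

end rm

section

variable {K : Type} [Field K] [NumberField K] {ι : Type} [Fintype ι] [DecidableEq ι]
  {κ : Type} [Fintype κ] [DecidableEq κ]

lemma finite_le (X : ℕ) : {v : HeightOneSpectrum (𝓞 K) | qv v ≤ X}.Finite := by
  have h1 := Ideal.finite_setOfPred_absNorm_le (S := 𝓞 K) X
  exact h1.preimage (f := fun v : HeightOneSpectrum (𝓞 K) => v.asIdeal)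
    (fun v _ w _ h => HeightOneSpectrum.ext h)

/-- the places of norm at most `X` -/
noncomputable def plE (K : Type) [Field K] [NumberField K] (X : ℕ) :
    Finset (HeightOneSpectrum (𝓞 K)) := (finite_le X).toFinset

lemma mem_plE {X : ℕ} {v : HeightOneSpectrum (𝓞 K)} : v ∈ plE K X ↔ qv v ≤ X := by
  unfold plE
  rw [Set.Finite.mem_toFinset]
  rfl

lemma plE_mono {X Y : ℕ} (h : X ≤ Y) : plE K X ⊆ plE K Y := fun v hv =>
  mem_plE.2 ((mem_plE.1 hv).trans h)

lemma plE_one {X : ℕ} (h : X ≤ 1) : plE K X = ∅ := by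
  ext v
  rw [mem_plE]
  have := two_le_qv v
  simp only [Finset.notMem_empty, iff_false]
  omega

variable (ω : Module.Basis ι ℤ (𝓞 K)) (W : ∀ v : HeightOneSpectrum (𝓞 K), (κ → kv v) → ℝ)

/-- the partial sums -/
noncomputable def ps (x : κ × ι → ℤ) (X : ℕ) : ℝ :=
  ∑ v ∈ plE K X, W v (redG v κ (ptG ω κ x))

open Classical in
lemma ps_sub {a b : ℕ} (h : a ≤ b) (x : κ × ι → ℤ) :
    ps ω W x b - ps ω W x a = ∑ v ∈ plE K b \ plE K a, W v (redG v κ (ptG ω κ x)) := by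
  unfold ps
  rw [← Finset.sum_sdiff (plE_mono h)]
  ring

lemma ps_zero (x : κ × ι → ℤ) : ps ω W x 0 = 0 := by
  unfold ps
  rw [plE_one (by norm_num), Finset.sum_empty]

lemma lev_mean {V S : HeightOneSpectrum (𝓞 K) → ℝ} (h0 : ∀ v, rmean (W v) = 0)
    (hV : ∀ v, rmean (fun a => W v a ^ 2) ≤ V v) (hS : ∀ v a, |W v a| ≤ S v)
    (B : κ × ι → ℕ) {J j : ℕ} (hj : j ≤ J) :
    ravg (MV.box B) (fun x => lev (ps ω W x) J j) ≤
      ∑ v ∈ plE K (2 ^ J), V v + (∑ v ∈ plE K (2 ^ J), S v * qv v) ^ 2 * eta B := by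
  classical
  have hS0 : ∀ v, 0 ≤ S v := fun v => (abs_nonneg _).trans (hS v 0)
  unfold lev
  rw [ravg_sum]
  have h1 : ∀ k ∈ range (2 ^ (J - j)),
      ravg (MV.box B) (fun x => (ps ω W x (2 ^ j * (k + 1)) - ps ω W x (2 ^ j * k)) ^ 2) ≤
      (∑ v ∈ plE K (2 ^ j * (k + 1)), V v - ∑ v ∈ plE K (2 ^ j * k), V v) +
      (∑ v ∈ plE K (2 ^ j * (k + 1)), S v * qv v - ∑ v ∈ plE K (2 ^ j * k), S v * qv v) ^ 2 *
        eta B := by
    intro k _
    have hle : 2 ^ j * k ≤ 2 ^ j * (k + 1) := Nat.mul_le_mul_left _ (by omega)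
    have h2 := var_box ω B (plE K (2 ^ j * (k + 1)) \ plE K (2 ^ j * k)) W V S
      (fun v _ => h0 v) (fun v _ => hV v) (fun v _ => hS v)
    have e1 : ∀ f : HeightOneSpectrum (𝓞 K) → ℝ,
        ∑ v ∈ plE K (2 ^ j * (k + 1)) \ plE K (2 ^ j * k), f v =
        ∑ v ∈ plE K (2 ^ j * (k + 1)), f v - ∑ v ∈ plE K (2 ^ j * k), f v := by
      intro f
      rw [← Finset.sum_sdiff (plE_mono hle)]
      ring
    rw [e1, e1] at h2
    have e2 : (fun x => (ps ω W x (2 ^ j * (k + 1)) - ps ω W x (2 ^ j * k)) ^ 2) =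
        fun x => (∑ v ∈ plE K (2 ^ j * (k + 1)) \ plE K (2 ^ j * k),
          W v (redG v κ (ptG ω κ x))) ^ 2 := by
      funext x
      rw [ps_sub ω W hle]
    rw [e2]
    exact h2
  refine (Finset.sum_le_sum h1).trans ?_
  rw [Finset.sum_add_distrib, ← Finset.sum_mul]
  have h2 : ∀ f : ℕ → ℝ, ∑ k ∈ range (2 ^ (J - j)), (f (2 ^ j * (k + 1)) - f (2 ^ j * k)) =
      f (2 ^ J) - f 0 := by
    intro f
    rw [Finset.sum_range_sub (fun k => f (2 ^ j * k))]
    beta_reduce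
    rw [mul_zero, ← pow_add]
    congr 3
    omega
  have h3 : ∑ k ∈ range (2 ^ (J - j)), (∑ v ∈ plE K (2 ^ j * (k + 1)), V v -
      ∑ v ∈ plE K (2 ^ j * k), V v) = ∑ v ∈ plE K (2 ^ J), V v := by
    rw [h2 (fun n => ∑ v ∈ plE K n, V v), plE_one (X := 0) (by norm_num), Finset.sum_empty,
      sub_zero]
  have h4 : ∑ k ∈ range (2 ^ (J - j)), (∑ v ∈ plE K (2 ^ j * (k + 1)), S v * qv v -
      ∑ v ∈ plE K (2 ^ j * k), S v * qv v) ^ 2 ≤ (∑ v ∈ plE K (2 ^ J), S v * qv v) ^ 2 := by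
    refine (sum_sq_le fun k => ?_).trans (le_of_eq ?_)
    · rw [sub_nonneg]
      refine Finset.sum_le_sum_of_subset_of_nonneg (plE_mono (Nat.mul_le_mul_left _ (by omega)))
        fun v _ _ => mul_nonneg (hS0 v) (Nat.cast_nonneg _)
    · rw [h2 (fun n => ∑ v ∈ plE K n, S v * qv v), plE_one (X := 0) (by norm_num),
        Finset.sum_empty, sub_zero]
  rw [h3]
  exact add_le_add le_rfl (mul_le_mul_of_nonneg_right h4 (eta_nonneg B))

open Classical in
/-- Markov's inequality for the maximum of the partial sums up to `2^J` -/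
lemma markov {V S : HeightOneSpectrum (𝓞 K) → ℝ} (h0 : ∀ v, rmean (W v) = 0)
    (hV : ∀ v, rmean (fun a => W v a ^ 2) ≤ V v) (hS : ∀ v a, |W v a| ≤ S v)
    (B : κ × ι → ℕ) (J : ℕ) {lam : ℝ} (hl : 0 ≤ lam) :
    (((MV.box B).filter fun x => ∃ X : ℕ, X ≤ 2 ^ J ∧ lam < |ps ω W x X|).card : ℝ) * lam ^ 2 ≤
      (MV.box B).card * (((J : ℝ) + 1) ^ 2 *
        (∑ v ∈ plE K (2 ^ J), V v + (∑ v ∈ plE K (2 ^ J), S v * qv v) ^ 2 * eta B)) := by
  set E : (κ × ι → ℤ) → ℝ := fun x => (J + 1) * ∑ j ∈ range (J + 1), lev (ps ω W x) J j with hE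
  have hE0 : ∀ x, 0 ≤ E x := fun x => mul_nonneg (by positivity)
    (Finset.sum_nonneg fun _ _ => lev_nonneg _ _ _)
  have h1 : (((MV.box B).filter fun x => ∃ X : ℕ, X ≤ 2 ^ J ∧ lam < |ps ω W x X|).card : ℝ) *
      lam ^ 2 ≤ ∑ x ∈ MV.box B, E x := by
    rw [← nsmul_eq_mul, ← Finset.sum_const]
    refine (Finset.sum_le_sum (g := E) fun x hx => ?_).trans
      (Finset.sum_le_sum_of_subset_of_nonneg (Finset.filter_subset _ _) fun x _ _ => hE0 x)
    obtain ⟨X, hX, hlt⟩ := (Finset.mem_filter.1 hx).2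
    have h2 := rm_sq J (ps ω W x) X hX
    rw [ps_zero, sub_zero] at h2
    refine le_trans ?_ h2
    rw [← sq_abs (ps ω W x X)]
    exact pow_le_pow_left₀ hl hlt.le 2
  refine h1.trans ?_
  have hc : (0 : ℝ) < (MV.box B).card := by exact_mod_cast card_box_pos B
  have h2 : ∑ x ∈ MV.box B, E x = (MV.box B).card * ravg (MV.box B) E := by
    unfold ravg
    field_simp
  rw [h2]
  refine mul_le_mul_of_nonneg_left ?_ hc.le
  rw [hE, ravg_const_mul, ravg_sum]
  have h3 : ∑ j ∈ range (J + 1), ravg (MV.box B) (fun x => lev (ps ω W x) J j) ≤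
      ∑ j ∈ range (J + 1), (∑ v ∈ plE K (2 ^ J), V v +
        (∑ v ∈ plE K (2 ^ J), S v * qv v) ^ 2 * eta B) :=
    Finset.sum_le_sum fun j hj => lev_mean ω W h0 hV hS B
      (by rw [Finset.mem_range] at hj; omega)
  rw [Finset.sum_const, Finset.card_range, nsmul_eq_mul] at h3
  calc ((J : ℝ) + 1) * ∑ j ∈ range (J + 1), ravg (MV.box B) (fun x => lev (ps ω W x) J j)
      ≤ (J + 1) * (((J + 1 : ℕ) : ℝ) * (∑ v ∈ plE K (2 ^ J), V v +
        (∑ v ∈ plE K (2 ^ J), S v * qv v) ^ 2 * eta B)) :=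
        mul_le_mul_of_nonneg_left h3 (by positivity)
    _ = _ := by push_cast; ring

end

end Pool.Agent.T6.H9.QM
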