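import Pool.Agent.T6.H9.QM.Dev
import Pool.Agent.T6.H9.HY.FamH

/-!
# The variance of sums of local functions over the places of a number field

Owner helper9.
-/

set_option autoImplicit false
set_option linter.unusedSectionVars false
set_option linter.style.haveILetI false
set_option linter.unusedVariables false

open Finset NumberField IsDedekindDomain

namespace Pool.Agent.T6.H9.QM

open Pool.Agent.T6.H9.MV Pool.Agent.T6.H9.HY

section mean

/-- real mean over a finite set -/
noncomputable def ravg {α : Type*} (s : Finset α) (F : α → ℝ) : ℝ := (∑ x ∈ s, F x) / (s.card : ℝ)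

/-- real mean over a finite type -/
noncomputable def rmean {α : Type*} (g : α → ℝ) : ℝ := (∑ᶠ t, g t) / (Nat.card α : ℝ)

lemma rmean_eq {α : Type*} [Fintype α] (g : α → ℝ) :
    rmean g = (∑ t, g t) / (Fintype.card α : ℝ) := by
  unfold rmean
  rw [finsum_eq_sum_of_fintype, Nat.card_eq_fintype_card]

lemma fmean_ofReal {α : Type*} [Finite α] (g : α → ℝ) :
    fmean (fun t => (g t : ℂ)) = ((rmean g : ℝ) : ℂ) := by
  haveI := Fintype.ofFinite α
  rw [fmean_eq, rmean_eq]
  push_cast
  rfl

lemma avg_ofReal {α : Type*} (s : Finset α) (F : α → ℝ) :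
    avg s (fun t => (F t : ℂ)) = ((ravg s F : ℝ) : ℂ) := by
  unfold avg ravg
  push_cast
  rfl

lemma ravg_mono {α : Type*} {s : Finset α} {F G : α → ℝ} (h : ∀ x ∈ s, F x ≤ G x) :
    ravg s F ≤ ravg s G := by
  unfold ravg
  exact div_le_div_of_nonneg_right (Finset.sum_le_sum h) (Nat.cast_nonneg _)

lemma ravg_sum {α β : Type*} (s : Finset α) (P : Finset β) (F : β → α → ℝ) :
    ravg s (fun x => ∑ v ∈ P, F v x) = ∑ v ∈ P, ravg s (F v) := by
  unfold ravg
  rw [Finset.sum_comm, Finset.sum_div]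

lemma ravg_const_mul {α : Type*} (s : Finset α) (c : ℝ) (F : α → ℝ) :
    ravg s (fun x => c * F x) = c * ravg s F := by
  unfold ravg
  rw [← Finset.mul_sum, mul_div_assoc]

lemma rmean_comp {Q R : Type*} [AddCommGroup Q] [AddCommGroup R] [Finite R] (π : R →+ Q)
    (hπ : Function.Surjective π) (g : Q → ℝ) : rmean (fun c => g (π c)) = rmean g := by
  haveI : Finite Q := Finite.of_surjective π hπ
  have h := fmean_comp π hπ (fun q => (g q : ℂ))
  rw [fmean_ofReal, fmean_ofReal] at h
  exact_mod_cast h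

lemma rmean_prod {α β : Type*} [Finite α] [Finite β] (f : α → ℝ) (g : β → ℝ) :
    rmean (fun p : α × β => f p.1 * g p.2) = rmean f * rmean g := by
  haveI := Fintype.ofFinite α
  haveI := Fintype.ofFinite β
  rw [rmean_eq, rmean_eq, rmean_eq, Fintype.sum_prod_type, Fintype.card_prod, div_mul_div_comm,
    Finset.sum_mul_sum]
  push_cast
  rfl

lemma rmean_le {α : Type*} [Finite α] [Nonempty α] {g : α → ℝ} {c : ℝ} (h : ∀ t, g t ≤ c) :
    rmean g ≤ c := by
  haveI := Fintype.ofFinite α
  have hc : (0 : ℝ) < (Fintype.card α : ℝ) := by exact_mod_cast Fintype.card_pos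
  rw [rmean_eq, div_le_iff₀ hc]
  refine (Finset.sum_le_sum fun t _ => h t).trans (le_of_eq ?_)
  rw [Finset.sum_const, Finset.card_univ, nsmul_eq_mul, mul_comm]

lemma rmean_sum {α β : Type*} [Finite α] (P : Finset β) (F : β → α → ℝ) :
    rmean (fun x => ∑ v ∈ P, F v x) = ∑ v ∈ P, rmean (F v) := by
  haveI := Fintype.ofFinite α
  rw [rmean_eq, Finset.sum_comm, Finset.sum_div]
  exact Finset.sum_congr rfl fun v _ => (rmean_eq _).symm

lemma rmean_const_mul {α : Type*} [Finite α] (c : ℝ) (F : α → ℝ) :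
    rmean (fun x => c * F x) = c * rmean F := by
  haveI := Fintype.ofFinite α
  rw [rmean_eq, rmean_eq, ← Finset.mul_sum, mul_div_assoc]

lemma rmean_add {α : Type*} [Finite α] (F G : α → ℝ) :
    rmean (fun x => F x + G x) = rmean F + rmean G := by
  haveI := Fintype.ofFinite α
  rw [rmean_eq, rmean_eq, rmean_eq, Finset.sum_add_distrib, add_div]

lemma rmean_sub {α : Type*} [Finite α] (F G : α → ℝ) :
    rmean (fun x => F x - G x) = rmean F - rmean G := by
  haveI := Fintype.ofFinite α
  rw [rmean_eq, rmean_eq, rmean_eq, Finset.sum_sub_distrib, sub_div]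

lemma rmean_const {α : Type*} [Finite α] [Nonempty α] (c : ℝ) : rmean (fun _ : α => c) = c := by
  haveI := Fintype.ofFinite α
  have hc : (Fintype.card α : ℝ) ≠ 0 := by exact_mod_cast Fintype.card_ne_zero
  rw [rmean_eq, Finset.sum_const, Finset.card_univ, nsmul_eq_mul]
  field_simp

end mean

section

variable {J : Type*} [Fintype J] [DecidableEq J]

/-- the size of the deviation -/
noncomputable def eta (B : J → ℕ) : ℝ := ∑ j, 1 / (2 * (B j : ℝ) + 1)

lemma eta_nonneg (B : J → ℕ) : 0 ≤ eta B := Finset.sum_nonneg fun j _ => by positivity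

theorem rdev_hom {Q : Type*} [AddCommGroup Q] [Finite Q] (φ : (J → ℤ) →+ Q)
    (hφ : Function.Surjective φ) {m : ℕ} (hm0 : m ≠ 0) (hm : ∀ q : Q, m • q = 0) (B : J → ℕ)
    (g : Q → ℝ) {S : ℝ} (hg : ∀ q, |g q| ≤ S) :
    |ravg (MV.box B) (fun x => g (φ x)) - rmean g| ≤ S * m * eta B := by
  have h := dev_hom φ hφ hm0 hm B (fun q => (g q : ℂ)) (S := S) (fun q => by
    rw [Complex.norm_real, Real.norm_eq_abs]
    exact hg q)
  rw [fmean_ofReal, avg_ofReal (MV.box B) (fun x => g (φ x)), ← Complex.ofReal_sub,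
    Complex.norm_real, Real.norm_eq_abs] at h
  refine h.trans (le_of_eq ?_)
  unfold eta
  rw [mul_assoc, Finset.mul_sum, Finset.mul_sum, Finset.mul_sum]
  refine Finset.sum_congr rfl fun j _ => ?_
  ring

end

section

variable {K : Type} [Field K] [NumberField K] {ι : Type} [Fintype ι] [DecidableEq ι]
  {κ : Type} [Fintype κ] [DecidableEq κ]

/-- the coefficients with given coordinates -/
noncomputable def ptG (ω : Module.Basis ι ℤ (𝓞 K)) (κ : Type) : (κ × ι → ℤ) →+ (κ → 𝓞 K) where
  toFun x := fun i => el ω fun j => x (i, j)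
  map_zero' := by
    funext i
    exact map_zero ω.equivFun.symm
  map_add' x y := by
    funext i
    exact map_add ω.equivFun.symm _ _

lemma ptG_apply (ω : Module.Basis ι ℤ (𝓞 K)) (x : κ × ι → ℤ) (i : κ) :
    ptG ω κ x i = el ω fun j => x (i, j) := rfl

lemma ptG_surj (ω : Module.Basis ι ℤ (𝓞 K)) : Function.Surjective (ptG ω κ) := by
  intro a
  refine ⟨fun p => ω.equivFun (a p.1) p.2, ?_⟩
  funext i
  exact ω.equivFun.symm_apply_apply (a i)

lemma ptG_inj (ω : Module.Basis ι ℤ (𝓞 K)) : Function.Injective (ptG ω κ) := by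
  intro x y h
  funext p
  have h1 := ω.equivFun.symm.injective (congrFun h p.1)
  exact congrFun h1 p.2

/-- reduction of the coefficients -/
def redG (v : HeightOneSpectrum (𝓞 K)) (κ : Type) : (κ → 𝓞 K) →+ (κ → kv v) where
  toFun a := fun i => Ideal.Quotient.mk v.asIdeal (a i)
  map_zero' := rfl
  map_add' _ _ := rfl

lemma redG_apply (v : HeightOneSpectrum (𝓞 K)) (a : κ → 𝓞 K) (i : κ) :
    redG v κ a i = Ideal.Quotient.mk v.asIdeal (a i) := rfl

lemma redG_surj (v : HeightOneSpectrum (𝓞 K)) : Function.Surjective (redG v κ) := by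
  intro c
  choose y hy using fun i => Ideal.Quotient.mk_surjective (c i)
  exact ⟨y, funext hy⟩

/-- reduction modulo two places -/
noncomputable def phi2 (ω : Module.Basis ι ℤ (𝓞 K)) (κ : Type) (v w : HeightOneSpectrum (𝓞 K)) :
    (κ × ι → ℤ) →+ (κ → kv v) × (κ → kv w) :=
  ((redG v κ).prod (redG w κ)).comp (ptG ω κ)

lemma phi2_surj (ω : Module.Basis ι ℤ (𝓞 K)) {v w : HeightOneSpectrum (𝓞 K)} (hvw : v ≠ w) :
    Function.Surjective (phi2 ω κ v w) := by
  rintro ⟨a, b⟩
  have hne : v.asIdeal ≠ w.asIdeal := fun h => hvw (HeightOneSpectrum.ext h)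
  have hcop : IsCoprime v.asIdeal w.asIdeal := by
    rw [Ideal.isCoprime_iff_sup_eq]
    exact v.isMaximal.coprime_of_ne w.isMaximal hne
  have hex : ∀ i : κ, ∃ c : 𝓞 K, Ideal.Quotient.mk v.asIdeal c = a i ∧
      Ideal.Quotient.mk w.asIdeal c = b i := by
    intro i
    obtain ⟨y, hy⟩ := Ideal.Quotient.mk_surjective (a i)
    obtain ⟨z, hz⟩ := Ideal.Quotient.mk_surjective (b i)
    obtain ⟨e, he, f, hf, hef⟩ := (Ideal.isCoprime_iff_exists).1 hcop
    refine ⟨y * f + z * e, ?_, ?_⟩
    · rw [← hy, Ideal.Quotient.mk_eq_mk_iff_sub_mem]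
      have h1 : y * f + z * e - y = (z - y) * e := by linear_combination y * hef
      rw [h1]
      exact v.asIdeal.mul_mem_left _ he
    · rw [← hz, Ideal.Quotient.mk_eq_mk_iff_sub_mem]
      have h1 : y * f + z * e - z = (y - z) * f := by linear_combination z * hef
      rw [h1]
      exact w.asIdeal.mul_mem_left _ hf
  choose c hc using hex
  obtain ⟨x, hx⟩ := ptG_surj ω c
  refine ⟨x, ?_⟩
  refine Prod.ext ?_ ?_
  · change redG v κ (ptG ω κ x) = a
    rw [hx]
    funext i
    exact (hc i).1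
  · change redG w κ (ptG ω κ x) = b
    rw [hx]
    funext i
    exact (hc i).2

lemma qv_smul (v : HeightOneSpectrum (𝓞 K)) (a : κ → kv v) : qv v • a = 0 := by
  funext i
  change qv v • a i = 0
  rw [← card_kv v]
  exact card_nsmul_eq_zero'

/-- **Variance over a box** of a sum of local functions of mean zero. -/
theorem var_box (ω : Module.Basis ι ℤ (𝓞 K)) (B : κ × ι → ℕ)
    (P : Finset (HeightOneSpectrum (𝓞 K))) (W : ∀ v : HeightOneSpectrum (𝓞 K), (κ → kv v) → ℝ)
    (V S : HeightOneSpectrum (𝓞 K) → ℝ) (h0 : ∀ v ∈ P, rmean (W v) = 0)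
    (hV : ∀ v ∈ P, rmean (fun a => W v a ^ 2) ≤ V v) (hS : ∀ v ∈ P, ∀ a, |W v a| ≤ S v) :
    ravg (MV.box B) (fun x => (∑ v ∈ P, W v (redG v κ (ptG ω κ x))) ^ 2) ≤
      ∑ v ∈ P, V v + (∑ v ∈ P, S v * qv v) ^ 2 * eta B := by
  classical
  have hS0 : ∀ v ∈ P, 0 ≤ S v := fun v hv => (abs_nonneg _).trans (hS v hv 0)
  have hq : ∀ v : HeightOneSpectrum (𝓞 K), (1 : ℝ) ≤ qv v := fun v => by
    have := two_le_qv v
    exact_mod_cast (by omega : 1 ≤ qv v)
  have h1 : ∀ v ∈ P, ∀ w ∈ P,
      ravg (MV.box B) (fun x => W v (redG v κ (ptG ω κ x)) * W w (redG w κ (ptG ω κ x))) ≤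
      S v * qv v * (S w * qv w) * eta B + if v = w then V v else 0 := by
    intro v hv w hw
    by_cases hvw : v = w
    · subst hvw
      rw [if_pos rfl]
      have h2 := rdev_hom ((redG v κ).comp (ptG ω κ)) ((redG_surj v).comp (ptG_surj ω))
        (m := qv v) (qv_ne_zero v) (qv_smul v) B (fun a => W v a ^ 2) (S := S v ^ 2)
        (fun a => by
          rw [abs_pow]
          exact pow_le_pow_left₀ (abs_nonneg _) (hS v hv a) 2)
      have h3 : ravg (MV.box B) (fun x => W v (redG v κ (ptG ω κ x)) *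
          W v (redG v κ (ptG ω κ x))) =
          ravg (MV.box B) (fun x => (fun a => W v a ^ 2) (((redG v κ).comp (ptG ω κ)) x)) := by
        congr 1
        funext x
        change _ = W v (redG v κ (ptG ω κ x)) ^ 2
        ring
      rw [h3]
      have h4 := (abs_le.1 h2).2
      have h5 : S v ^ 2 * (qv v : ℝ) * eta B ≤ S v * qv v * (S v * qv v) * eta B := by
        refine mul_le_mul_of_nonneg_right ?_ (eta_nonneg B)
        have h6 : S v * qv v * (S v * qv v) = S v ^ 2 * (qv v * qv v) := by ring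
        rw [h6]
        refine mul_le_mul_of_nonneg_left ?_ (sq_nonneg _)
        have := hq v
        nlinarith
      have h7 := hV v hv
      linarith
    · rw [if_neg hvw, add_zero]
      have h2 := rdev_hom (phi2 ω κ v w) (phi2_surj ω hvw)
        (m := qv v * qv w) (mul_ne_zero (qv_ne_zero v) (qv_ne_zero w))
        (fun p => by
          refine Prod.ext ?_ ?_
          · change (qv v * qv w) • p.1 = 0
            rw [mul_comm, mul_smul, qv_smul, smul_zero]
          · change (qv v * qv w) • p.2 = 0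
            rw [mul_smul, qv_smul, smul_zero]) B (fun p => W v p.1 * W w p.2) (S := S v * S w)
        (fun p => by
          rw [abs_mul]
          exact mul_le_mul (hS v hv _) (hS w hw _) (abs_nonneg _) (hS0 v hv))
      rw [rmean_prod, h0 v hv, zero_mul, sub_zero] at h2
      have h4 := (abs_le.1 h2).2
      refine (le_of_eq ?_).trans (h4.trans (le_of_eq ?_))
      · rfl
      · push_cast
        ring
  have h2 : ravg (MV.box B) (fun x => (∑ v ∈ P, W v (redG v κ (ptG ω κ x))) ^ 2) =
      ∑ v ∈ P, ∑ w ∈ P,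
        ravg (MV.box B) (fun x => W v (redG v κ (ptG ω κ x)) * W w (redG w κ (ptG ω κ x))) := by
    rw [← Finset.sum_congr rfl fun v _ => ravg_sum (MV.box B) P
      (fun w x => W v (redG v κ (ptG ω κ x)) * W w (redG w κ (ptG ω κ x))), ← ravg_sum]
    congr 1
    funext x
    rw [sq, Finset.sum_mul_sum]
  rw [h2]
  refine (Finset.sum_le_sum fun v hv => Finset.sum_le_sum fun w hw => h1 v hv w hw).trans
    (le_of_eq ?_)
  simp_rw [Finset.sum_add_distrib]
  rw [add_comm]
  congr 1
  · refine Finset.sum_congr rfl fun v hv => ?_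
    rw [Finset.sum_ite_eq, if_pos hv]
  · rw [sq, Finset.sum_mul_sum, Finset.sum_mul]
    refine Finset.sum_congr rfl fun v hv => ?_
    rw [Finset.sum_mul]

end

end Pool.Agent.T6.H9.QM
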